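import Mathlib

namespace Pool.Agent.Results.MP_66a881_co.Day

open Finset

/-- `a` lists the distinct elements of a `B_h` set over the integers -/
def IsSignedBh {n m : ℕ} (h : ℕ) (a : Fin m → ZMod n) : Prop :=
  Function.Injective a ∧
    Set.InjOn (fun l : Fin m → ℤ => ∑ i, l i • a i) {l | ∑ i, |l i| = (h : ℤ)}

lemma even_aux (k x y : ℤ) (hk : 0 < k) (hn : |x| + |y| + 1 ≤ 4 * k) (hp : (x + y + 1) % 2 = 0)
    (e : x + 2 * k * y = 4 * k * k + 2 * k + 1) : False := by
  obtain ⟨t, rfl⟩ : ∃ t, y = 2 * k + 1 + t := ⟨y - 2 * k - 1, by ring⟩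
  have hx : x = 1 - 2 * (k * t) := by linarith
  have h1 := le_abs_self x
  have h2 := neg_abs_le x
  have h3 := le_abs_self (2 * k + 1 + t)
  have h4 := abs_nonneg (2 * k + 1 + t)
  have ht : t % 2 = 1 := by omega
  rcases (show 1 ≤ t ∨ t = -1 ∨ t ≤ -3 by omega) with h | h | h
  · nlinarith
  · subst h; omega
  · nlinarith

lemma even_case (k x y z : ℤ) (hk : 0 < k) (hn : |x| + |y| + |z| ≤ 4 * k)
    (hp : (x + y + z) % 2 = 0) (e : x + 2 * k * y + (4 * k * k + 2 * k + 1) * z = 0) :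
    x = 0 ∧ y = 0 ∧ z = 0 := by
  have h1 := le_abs_self x
  have h2 := neg_abs_le x
  have h3 := le_abs_self y
  have h4 := neg_abs_le y
  have h5 := le_abs_self z
  have h6 := neg_abs_le z
  have h7 := abs_nonneg x
  have h8 := abs_nonneg y
  rcases (show 2 ≤ z ∨ z = 1 ∨ z = 0 ∨ z = -1 ∨ z ≤ -2 by omega) with h | h | h | h | h
  · exfalso
    have a1 : 0 ≤ (4 * k * k + 2 * k + 1) * (z - 2) := mul_nonneg (by positivity) (by linarith)
    have a2 : 0 ≤ k * (y + |y|) := mul_nonneg hk.le (by linarith)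
    have a3 : 0 ≤ k * (4 * k - 2 - |x| - |y|) := mul_nonneg hk.le (by linarith)
    have a4 : 0 ≤ (k - 1) * |x| := mul_nonneg (by linarith) h7
    nlinarith
  · subst h
    exact (even_aux k (-x) (-y) hk (by simpa using hn) (by omega) (by linarith)).elim
  · subst h
    have hx : x = - (2 * (k * y)) := by linarith
    have hy : y % 2 = 0 := by omega
    rcases (show 2 ≤ y ∨ y = 0 ∨ y ≤ -2 by omega) with h | h | h
    · exfalso; nlinarith
    · subst h; omega
    · exfalso; nlinarith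
  · subst h
    exact (even_aux k x y hk (by simpa using hn) (by omega) (by linarith)).elim
  · exfalso
    have a1 : 0 ≤ (4 * k * k + 2 * k + 1) * (-z - 2) := mul_nonneg (by positivity) (by linarith)
    have a2 : 0 ≤ k * (-y + |y|) := mul_nonneg hk.le (by linarith)
    have a3 : 0 ≤ k * (4 * k - 2 - |x| - |y|) := mul_nonneg hk.le (by linarith)
    have a4 : 0 ≤ (k - 1) * |x| := mul_nonneg (by linarith) h7
    nlinarith

lemma odd_aux (k x y : ℤ) (hk : 0 ≤ k) (hn : |x| + |y| + 1 ≤ 4 * k + 2)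
    (hp : (x + y + 1) % 2 = 0)
    (e : 2 * x + (2 * k + 1) * y = 4 * k * k + 6 * k + 6) : False := by
  have hy : y % 2 = 0 := by
    have : 2 * x + 2 * (k * y) + y = 4 * (k * k) + 6 * k + 6 := by linarith
    omega
  obtain ⟨t, rfl⟩ : ∃ t, y = 2 * k + 2 + 2 * t := ⟨(y - 2 * k - 2) / 2, by omega⟩
  have hx : x = 2 - 2 * (k * t) - t := by linarith
  have h1 := le_abs_self x
  have h2 := neg_abs_le x
  have h3 := le_abs_self (2 * k + 2 + 2 * t)
  have h4 := abs_nonneg (2 * k + 2 + 2 * t)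
  have ht : t % 2 = 1 := by omega
  rcases (show 1 ≤ t ∨ t = -1 ∨ t ≤ -3 by omega) with h | h | h
  · nlinarith
  · subst h; omega
  · nlinarith

lemma odd_case (k x y z : ℤ) (hk : 0 ≤ k) (hn : |x| + |y| + |z| ≤ 4 * k + 2)
    (hp : (x + y + z) % 2 = 0) (e : 2 * x + (2 * k + 1) * y + (4 * k * k + 6 * k + 6) * z = 0) :
    x = 0 ∧ y = 0 ∧ z = 0 := by
  have h1 := le_abs_self x
  have h2 := neg_abs_le x
  have h3 := le_abs_self y
  have h4 := neg_abs_le y
  have h5 := le_abs_self z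
  have h6 := neg_abs_le z
  have h7 := abs_nonneg x
  have h8 := abs_nonneg y
  rcases (show 2 ≤ z ∨ z = 1 ∨ z = 0 ∨ z = -1 ∨ z ≤ -2 by omega) with h | h | h | h | h
  · exfalso
    have a1 : 0 ≤ (4 * k * k + 6 * k + 6) * (z - 2) := mul_nonneg (by positivity) (by linarith)
    have a2 : 0 ≤ k * (y + |y|) := mul_nonneg hk (by linarith)
    have a3 : 0 ≤ k * (4 * k - |x| - |y|) := mul_nonneg hk (by linarith)
    have a4 : 0 ≤ k * |x| := mul_nonneg hk h7
    nlinarith
  · subst h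
    exact (odd_aux k (-x) (-y) hk (by simpa using hn) (by omega) (by linarith)).elim
  · subst h
    have hy : y % 2 = 0 := by
      have : 2 * x + 2 * (k * y) + y = 0 := by linarith
      omega
    obtain ⟨t, rfl⟩ : ∃ t, y = 2 * t := ⟨y / 2, by omega⟩
    have hx : x = - (2 * (k * t)) - t := by linarith
    have ht : t % 2 = 0 := by omega
    rcases (show 2 ≤ t ∨ t = 0 ∨ t ≤ -2 by omega) with h | h | h
    · exfalso; nlinarith
    · subst h; omega
    · exfalso; nlinarith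
  · subst h
    exact (odd_aux k x y hk (by simpa using hn) (by omega) (by linarith)).elim
  · exfalso
    have a1 : 0 ≤ (4 * k * k + 6 * k + 6) * (-z - 2) := mul_nonneg (by positivity) (by linarith)
    have a2 : 0 ≤ k * (-y + |y|) := mul_nonneg hk (by linarith)
    have a3 : 0 ≤ k * (4 * k - |x| - |y|) := mul_nonneg hk (by linarith)
    have a4 : 0 ≤ k * |x| := mul_nonneg hk h7
    nlinarith

lemma abs_parity (x : ℤ) : |x| % 2 = x % 2 := by
  rcases abs_cases x with ⟨h, _⟩ | ⟨h, _⟩ <;> omega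

lemma transfer (h n : ℕ) (hh : 1 ≤ h) (a b c : ℤ) (ha : |a| ≤ c) (hb : |b| ≤ c) (hc : 0 ≤ c)
    (hn : 2 * h * c < n)
    (H : ∀ x y z : ℤ, |x| + |y| + |z| ≤ 2 * h → (x + y + z) % 2 = 0 →
      a * x + b * y + c * z = 0 → x = 0 ∧ y = 0 ∧ z = 0) :
    IsSignedBh h (![(a : ZMod n), (b : ZMod n), (c : ZMod n)]) := by
  have hinj : Set.InjOn (fun l : Fin 3 → ℤ => ∑ i, l i • (![(a : ZMod n), (b : ZMod n),
      (c : ZMod n)]) i) {l | ∑ i, |l i| = (h : ℤ)} := by
    intro l hl l' hl' e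
    simp only [Set.mem_ofPred_eq, Fin.sum_univ_three] at hl hl'
    simp only [Fin.sum_univ_three, Matrix.cons_val_zero, Matrix.cons_val_one, Matrix.cons_val,
      zsmul_eq_mul] at e
    have e2 : ((a * (l 0 - l' 0) + b * (l 1 - l' 1) + c * (l 2 - l' 2) : ℤ) : ZMod n) = 0 := by
      push_cast
      linear_combination e
    rw [ZMod.intCast_zmod_eq_zero_iff_dvd] at e2
    have b0 := abs_sub (l 0) (l' 0)
    have b1 := abs_sub (l 1) (l' 1)
    have b2 := abs_sub (l 2) (l' 2)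
    have hb' : |l 0 - l' 0| + |l 1 - l' 1| + |l 2 - l' 2| ≤ 2 * h := by linarith
    have e3 : a * (l 0 - l' 0) + b * (l 1 - l' 1) + c * (l 2 - l' 2) = 0 := by
      refine Int.eq_zero_of_abs_lt_dvd e2 (lt_of_le_of_lt ?_ hn)
      calc _ ≤ |a * (l 0 - l' 0)| + |b * (l 1 - l' 1)| + |c * (l 2 - l' 2)| := abs_add_three _ _ _
        _ ≤ c * |l 0 - l' 0| + c * |l 1 - l' 1| + c * |l 2 - l' 2| := by
          rw [abs_mul, abs_mul, abs_mul, abs_of_nonneg hc]
          gcongr
        _ ≤ 2 * h * c := by nlinarith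
    have p0 := abs_parity (l 0)
    have p1 := abs_parity (l 1)
    have p2 := abs_parity (l 2)
    have q0 := abs_parity (l' 0)
    have q1 := abs_parity (l' 1)
    have q2 := abs_parity (l' 2)
    obtain ⟨r0, r1, r2⟩ := H _ _ _ hb' (by omega) e3
    funext i
    fin_cases i
    · exact sub_eq_zero.1 r0
    · exact sub_eq_zero.1 r1
    · exact sub_eq_zero.1 r2
  refine ⟨fun i j hij => ?_, hinj⟩
  have hm : ∀ i : Fin 3, (Pi.single i (h : ℤ) : Fin 3 → ℤ) ∈
      {l : Fin 3 → ℤ | ∑ i, |l i| = (h : ℤ)} := by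
    intro i
    simp [Pi.single_apply, apply_ite abs]
  have := hinj (hm i) (hm j) (by simp [Pi.single_apply, ite_smul, hij])
  have h2 := congrFun this i
  by_contra hne
  simp [Pi.single_apply, hne] at h2
  omega

theorem result (h n : ℕ) (hh : 1 ≤ h) (hn : 2 * h ^ 3 + 2 * h ^ 2 + 8 * h + 1 ≤ n) :
    ∃ a : Fin 3 → ZMod n, IsSignedBh h a := by
  have hn' : 2 * (h : ℤ) ^ 3 + 2 * (h : ℤ) ^ 2 + 8 * h + 1 ≤ n := by exact_mod_cast hn
  have hh' : (1 : ℤ) ≤ h := by exact_mod_cast hh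
  rcases Nat.even_or_odd' h with ⟨k, hk | hk⟩
  · have hk' : (h : ℤ) = 2 * k := by exact_mod_cast hk
    refine ⟨_, transfer h n hh 1 h (h ^ 2 + h + 1) ?_ ?_ (by positivity) (by nlinarith) ?_⟩
    · rw [abs_one]; nlinarith
    · rw [abs_of_nonneg (by positivity)]; nlinarith
    · intro x y z h1 h2 h3
      rw [hk'] at h1 h3
      exact even_case k x y z (by omega) (by linarith) h2 (by linarith)
  · have hk' : (h : ℤ) = 2 * k + 1 := by exact_mod_cast hk
    refine ⟨_, transfer h n hh 2 h (h ^ 2 + h + 4) ?_ ?_ (by positivity) (by nlinarith) ?_⟩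
    · rw [abs_two]; nlinarith
    · rw [abs_of_nonneg (by positivity)]; nlinarith
    · intro x y z h1 h2 h3
      rw [hk'] at h1 h3
      exact odd_case k x y z (by omega) (by linarith) h2 (by linarith)

end Pool.Agent.Results.MP_66a881_co.Day
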